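import Mathlib

set_option autoImplicit false

/-!
# Reversed polynomials: values and multiplicities
-/

open Polynomial

namespace Pool.Agent.H632.TP207

/-- `w ^ m * F (b + 1 / w)` -/
noncomputable def rv (m : ℕ) (b : ℂ) (F : ℂ[X]) : ℂ[X] := (F.comp (X + C b)).reflect m

theorem deg_comp (b : ℂ) (F : ℂ[X]) : (F.comp (X + C b)).natDegree = F.natDegree := by
  rw [natDegree_comp, natDegree_X_add_C, mul_one]

theorem rv_deg {m : ℕ} {b : ℂ} {F : ℂ[X]} (hF : F.natDegree ≤ m) : (rv m b F).natDegree ≤ m := by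
  rw [natDegree_le_iff_coeff_eq_zero]
  intro i hi
  unfold rv
  rw [coeff_reflect, revAt_eq_self_of_lt hi]
  exact coeff_eq_zero_of_natDegree_lt (by rw [deg_comp]; omega)

theorem rv_eval {m : ℕ} {b : ℂ} {F : ℂ[X]} (hF : F.natDegree ≤ m) {z : ℂ} (hz : z ≠ b) :
    (rv m b F).eval (z - b)⁻¹ = (z - b)⁻¹ ^ m * F.eval z := by
  have h0 : z - b ≠ 0 := sub_ne_zero.mpr hz
  let _ := invertibleOfNonzero h0
  have h1 := eval₂_reflect_mul_pow (RingHom.id ℂ) (z - b) m (F.comp (X + C b))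
    (by rw [deg_comp]; exact hF)
  rw [invOf_eq_inv] at h1
  change (rv m b F).eval (z - b)⁻¹ * (z - b) ^ m = (F.comp (X + C b)).eval (z - b) at h1
  rw [eval_comp, eval_add, eval_X, eval_C, sub_add_cancel] at h1
  rw [← h1, inv_pow]
  field_simp

theorem rv_zero {m : ℕ} {b : ℂ} {F : ℂ[X]} (hF : F.natDegree ≤ m) :
    (rv m b F).eval 0 = F.coeff m := by
  rw [← coeff_zero_eq_eval_zero]
  unfold rv
  rw [coeff_reflect, revAt_le (Nat.zero_le m), Nat.sub_zero]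
  rcases hF.lt_or_eq with h | h
  · rw [coeff_eq_zero_of_natDegree_lt (by rw [deg_comp]; exact h), coeff_eq_zero_of_natDegree_lt h]
  · have h1 := coeff_comp_degree_mul_degree (p := F) (q := X + C b) (by
      rw [natDegree_X_add_C]; exact one_ne_zero)
    rw [natDegree_X_add_C, mul_one, leadingCoeff_X_add_C, one_pow, mul_one, h] at h1
    rw [h1, leadingCoeff, h]

theorem rv_top {m : ℕ} {b : ℂ} {F : ℂ[X]} : (rv m b F).coeff m = F.eval b := by
  unfold rv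
  rw [coeff_reflect, revAt_le le_rfl, Nat.sub_self, coeff_zero_eq_eval_zero, eval_comp, eval_add,
    eval_X, eval_C, zero_add]

theorem rv_mul {k l : ℕ} {b : ℂ} {P Q : ℂ[X]} (hP : P.natDegree ≤ k) (hQ : Q.natDegree ≤ l) :
    rv (k + l) b (P * Q) = rv k b P * rv l b Q := by
  unfold rv
  rw [mul_comp, reflect_mul _ _ (by rw [deg_comp]; exact hP) (by rw [deg_comp]; exact hQ)]

theorem rv_lin {b z : ℂ} (hz : z ≠ b) : rv 1 b (X - C z) = C (b - z) * (X - C (z - b)⁻¹) := by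
  have h0 : z - b ≠ 0 := sub_ne_zero.mpr hz
  have e1 : (X - C z : ℂ[X]).comp (X + C b) = X ^ 1 + C (b - z) * X ^ 0 := by
    rw [sub_comp, X_comp, C_comp, pow_one, pow_zero, mul_one, C_sub]
    ring
  unfold rv
  rw [e1, reflect_add, reflect_C_mul_X_pow]
  have e2 : reflect 1 (X ^ 1 : ℂ[X]) = 1 := by
    have := reflect_monomial (R := ℂ) 1 1
    rw [this, revAt_le le_rfl, Nat.sub_self, pow_zero]
  rw [e2, revAt_le (Nat.zero_le 1), Nat.sub_zero, pow_one, mul_sub, ← C_mul]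
  have e3 : (b - z) * (z - b)⁻¹ = -1 := by
    rw [← neg_sub z b, neg_mul, mul_inv_cancel₀ h0]
  rw [e3, C_neg, C_1]
  ring

theorem rv_pow {b z : ℂ} (hz : z ≠ b) (k : ℕ) :
    rv k b ((X - C z) ^ k) = (C (b - z) * (X - C (z - b)⁻¹)) ^ k := by
  induction k with
  | zero =>
    rw [pow_zero, pow_zero]
    unfold rv
    rw [one_comp]
    have := reflect_C (R := ℂ) 1 0
    rw [C_1, pow_zero, mul_one] at this
    exact this
  | succ k ih =>
    rw [pow_succ, rv_mul (by rw [natDegree_pow, natDegree_X_sub_C, mul_one])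
      (by rw [natDegree_X_sub_C]), ih, rv_lin hz, pow_succ]

theorem rv_ne {m : ℕ} {b : ℂ} {F : ℂ[X]} (hF : F ≠ 0) : rv m b F ≠ 0 := by
  unfold rv
  rw [Ne, reflect_eq_zero_iff]
  intro h
  apply hF
  have h2 : (F.comp (X + C b)).comp (X - C b) = F := by
    rw [comp_assoc, add_comp, X_comp, C_comp, sub_add_cancel, comp_X]
  rw [← h2, h, zero_comp]

theorem rv_mult {m : ℕ} {b : ℂ} {F : ℂ[X]} (hF : F.natDegree ≤ m) (h0 : F ≠ 0) {z : ℂ}
    (hz : z ≠ b) : (rv m b F).rootMultiplicity (z - b)⁻¹ = F.rootMultiplicity z := by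
  obtain ⟨G, hG, hnd⟩ := exists_eq_pow_rootMultiplicity_mul_and_not_dvd F h0 z
  set k := F.rootMultiplicity z with hk
  have hGe : G.eval z ≠ 0 := by
    intro h
    exact hnd (dvd_iff_isRoot.mpr h)
  have hG0 : G ≠ 0 := by
    rintro rfl
    exact hGe eval_zero
  have hXk : (X - C z : ℂ[X]) ^ k ≠ 0 := pow_ne_zero _ (X_sub_C_ne_zero z)
  have hdeg : F.natDegree = k + G.natDegree := by
    rw [hG, natDegree_mul hXk hG0, natDegree_pow, natDegree_X_sub_C, mul_one]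
  obtain ⟨l, rfl⟩ : ∃ l, m = k + l := ⟨m - k, by omega⟩
  have hl : G.natDegree ≤ l := by omega
  have e1 : rv (k + l) b F = (C (b - z) * (X - C (z - b)⁻¹)) ^ k * rv l b G := by
    rw [hG, rv_mul (by rw [natDegree_pow, natDegree_X_sub_C, mul_one]) hl, rv_pow hz]
  have hbz : b - z ≠ 0 := sub_ne_zero.mpr (Ne.symm hz)
  have hzb : z - b ≠ 0 := sub_ne_zero.mpr hz
  have hR : (rv l b G).eval (z - b)⁻¹ ≠ 0 := by
    rw [rv_eval hl hz]
    exact mul_ne_zero (pow_ne_zero _ (inv_ne_zero hzb)) hGe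
  rw [e1, mul_pow, ← C_pow, mul_assoc]
  have hc : (b - z) ^ k ≠ 0 := pow_ne_zero _ hbz
  have hC : (C ((b - z) ^ k) : ℂ[X]) ≠ 0 := C_ne_zero.mpr hc
  have hX : (X - C (z - b)⁻¹ : ℂ[X]) ^ k ≠ 0 := pow_ne_zero _ (X_sub_C_ne_zero _)
  rw [rootMultiplicity_mul (mul_ne_zero hC (mul_ne_zero hX (rv_ne hG0))),
    rootMultiplicity_mul (mul_ne_zero hX (rv_ne hG0)), rootMultiplicity_C,
    rootMultiplicity_X_sub_C_pow, rootMultiplicity_eq_zero hR, zero_add, add_zero]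

theorem rev_all (m : ℕ) (b : ℂ) (F : ℂ[X]) (hF : F.natDegree ≤ m) :
    (rv m b F).natDegree ≤ m ∧
    (∀ z : ℂ, z ≠ b → (rv m b F).eval (z - b)⁻¹ = (z - b)⁻¹ ^ m * F.eval z) ∧
    (rv m b F).eval 0 = F.coeff m ∧ (rv m b F).coeff m = F.eval b ∧
    (F ≠ 0 → rv m b F ≠ 0 ∧ ∀ z : ℂ, z ≠ b →
      (rv m b F).rootMultiplicity (z - b)⁻¹ = F.rootMultiplicity z) :=
  ⟨rv_deg hF, fun _ hz => rv_eval hF hz, rv_zero hF, rv_top,
    fun h0 => ⟨rv_ne h0, fun _ hz => rv_mult hF h0 hz⟩⟩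

end Pool.Agent.H632.TP207
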