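import Pool.Agent.H207.TP.Stm
import Pool.Agent.H632.TP207.RevCore

set_option autoImplicit false

/-!
# Reversed polynomials: values and multiplicities
-/

namespace Pool.Agent.H632.TP207

theorem t_REV : Pool.Agent.H207.TP.S_REV := by
  intro m b F hF
  exact rev_all m b F hF

end Pool.Agent.H632.TP207
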